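import Pool.Agent.V11219.IsoFamily

/-!
# The Tate conjecture for products with powers of varieties with isolated finite inertia, without
good reduction of the other factors

Let `W` be a Weil cohomology theory with algebraically closed coefficients (étale cohomology with
coefficients in the closure of `ℚ_ℓ`) on a class of smooth proper varieties over the algebraic closure
`k` of a field `k₁` finitely generated over `ℚ`, with an action of a group `Γ` (the Galois group of
`k₁`) on the cohomology of the varieties under consideration.

Let `X_i` be varieties of odd dimension for which numerical and homological equivalence coincide,
whose transcendental cohomology `T_i` (the orthogonal complement of all algebraic classes) is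
concentrated in the middle degree and irreducible under all subgroups of finite index of `Γ`. For
every `i` let there be one element `g_i` of `Γ`, acting trivially on the Tate twists (an element of an
inertia group), with one of the following properties:

* (*isolated inertia*) `g_i` acts on `T_i` with finite order; its eigenvalues on `T_i` are divided
  into two nonempty parts, both stable under inversion, such that for `α` in the first and `β` in the
  second part one of the two eigenspaces is one-dimensional, `β / α` is the quotient of no other pair
  of eigenvalues on `T_i` than this one and the dual one, progressions `α', α' (β / α),
  α' (β / α) ^ 2` of eigenvalues on `T_i` are self-dual with simple outer terms, and `β / α` is not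
  in a group `Λ_i` of numbers which contains all eigenvalues of `g_i` on the cohomology of `Z` and of
  the `X_j` with `j ≠ i`;
* the conditions on `g_i` of the known result for elements of small rank: `g_i` acts trivially on the
  cohomology of `Z` and of the `X_j` with `j ≠ i`, and on `T_i` it is unipotent with
  `(g_i - 1) ^ 2 = 0` and of rank at most two, or of finite order with all eigenvalues simple except
  one, `1` or `-1`, whose eigenspace has a dimension `d` with `c ^ 2 < 2 d`, `c` its codimension.

In the cases of finite order let some element of `Γ` (a Frobenius element) have two eigenvalues on
`T_i` whose quotient is not a root of unity; this is automatic for Galois representations.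

Then the Tate conjecture, for cycles of all codimensions, holds for the product of `Z` with arbitrary
powers of the `X_i` if and only if it holds for `Z`.

Example of isolated inertia: `v_i` is a place of `k₁` with residue characteristic `p ≠ ℓ` at which
the model of `X_i` is smooth except for one singularity of type `A_{2m}`, with an equation
`x_0 ^ 2 + ⋯ + x_{n-1} ^ 2 + x_n ^ (2m+1) = t`, where `n = dim X_i`, `t` has valuation prime to
`2 (2m + 1)` and `p` does not divide `2 (2m + 1)`. A generator of the tame inertia
has on the middle cohomology the simple eigenvalues `-ζ ^ j`, `j = 1, …, 2m`, where `ζ` is a root of
unity of order `2m + 1`, and the eigenvalue `1` with multiplicity `dim T_i - 2m`, and this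
only has to be positive (for curves of genus `g`: all `m < g`). The quotients are the numbers
`-ζ ^ j`. So `Z` and the other `X_j` do not need good reduction at `v_i`: it is
sufficient that the eigenvalues of the inertia group on their cohomology are roots of unity of odd order,
or that they are roots of unity of order prime to `2m + 1`; for example that their reduction is
semistable, or potentially semistable over an extension of degree prime to `2m + 1`. Also all the `X_i` may
degenerate at the same place, with singularities of types `A_{2 m_i}` such that the numbers
`2 m_i + 1` are pairwise prime.

The proof: let `L` be the Lie algebra of the operators on `T = T_i` which kill all the multilinear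
maps from `T` to the cohomology `H` of the other factors which are equivariant under some subgroup of
finite index. The Jordan decomposition of the Frobenius element gives an operator `Y` on `T`, not a
scalar, with an operator `Y'` on `H` such that the pair is compatible with all these multilinear
maps. The pairs are permuted by the conjugation with `g`; the components of `Y` for eigenvalues `ν` of
this conjugation that are not quotients of eigenvalues of `g` on `H` are in `L`, since the component
of `Y'` for `ν` is zero. As `T` is irreducible under subgroups of finite index, some component for a
quotient `ν = β / α` or `α / β` is not zero for some `Y`; isolation shows that it has
rank at most two and square zero. So `L` is the whole symplectic Lie algebra, and by the first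
fundamental theorem the Tate classes are combinations of products of algebraic classes on the
factors `X`, of the transcendental parts of the diagonals of pairs of factors `X` and of Tate classes
of the remaining factor.
-/

universe u

namespace Pool.Agent.Results.MP_640417_ag.IsolatedInertiaProducts

open Pool.Agent.H914 Pool.Agent.H281R3.HT Pool.Agent.TH125.Gal Pool.Agent.V11219.IsoF

/-- **The Tate conjecture for products with powers of varieties with isolated finite inertia.** -/
theorem result {k : Type u} [Field k] {𝒱 : VarClass k} {ops : CycleOps 𝒱}
    (W : WeilCohomology.{u, 0} ops) [IsAlgClosed W.K] {Γ : Type} [Group Γ] (χ : Γ →* W.Kˣ)
    {ι : Type} (X : ι → GVar W Γ) (Z : GVar W Γ) (h : InertiaFamily χ X Z) (S : Set ι)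
    (Y : GVar W Γ) (hY : GTower X Z S Y) : TateConjecture χ Y ↔ TateConjecture χ Z :=
  tate_inertia h hY

end Pool.Agent.Results.MP_640417_ag.IsolatedInertiaProducts
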