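import Mathlib
import Pool.Agent.V1141.OF.MildMain

/-!
# Tate classes on products of arbitrary varieties, from the discriminants in one Frobenius polynomial

Let `X i`, `i ∈ I`, be finitely many smooth projective varieties over a finitely generated field of
characteristic zero and let `V i` be the dual of the `ℓ`-adic cohomology of `X i` in the odd degree
`2 * e i + 1`, or of a direct summand on which the form `ω i` given by the hard Lefschetz
theorem and Poincaré duality is not degenerate; the Galois group `Γ` acts on `ω i` by the power
`χ ^ (2 * e i + 1)` of the cyclotomic character. Suppose that at ONE closed point of good reduction,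
with residue field of `p ^ a` elements and Frobenius element `γ`, the characteristic polynomial of `γ`
on `V i` is the product of the minimal polynomials of algebraic integers `π j` (`j ∈ J`, `c j = i`)
that generate CM fields `K j`, and that these Weil numbers (of possibly different weights) are `Mild` and
`Separated`:

* `Mild`: for every family of CM subfields `T j` of the fields `K j`, `j ∈ S ≠ ∅`, some prime number
  divides one of the discriminants of the `T j`, but its third power does not divide their product; or
  some automorphism of `ℂ` moves at least one and at most four embeddings of the `T j`; or it acts on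
  the pairs of conjugate embeddings as one cycle of odd prime length; if the norms of the `π j` to the
  `T j` have only two slopes, `third power` and `four` may be replaced by `fourth power` and `six`;
* `Separated`: different embeddings of CM subfields never map positive powers of the normalised norms
  of the `π j` to the same complex number.

Then all Tate classes in all the tensor products `⨂ H ^ (2 e + 1) (X (t l))`, that is, on all products
of copies of the varieties, are linear combinations of products of Tate classes on the products of
two of the varieties (`TateGeneratedByPairs`).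

It is NOT assumed that the representations are semisimple, and the degrees may be different. For one
abelian variety (`e = 0`) and a semisimple representation this is MP_021685_ag.OneFrobenius.
-/

set_option autoImplicit false

namespace Pool.Agent.Results.MP_640417_ag.MildDifferentDegrees

open NumberField Module IntermediateField Pool.Agent.W527.Norm Pool.Agent.V1141.OF

theorem result (ℓ p : ℕ) [Fact ℓ.Prime] [Fact p.Prime] (a : ℕ) (ha : 0 < a)
    -- the representations, in the degrees `2 * e i + 1`
    {I : Type} [Fintype I] [DecidableEq I] (e : I → ℕ) {V : I → Type}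
    [∀ i, AddCommGroup (V i)] [∀ i, Module ℚ_[ℓ] (V i)] [∀ i, FiniteDimensional ℚ_[ℓ] (V i)]
    {Γ : Type} [Group Γ] (ρ : ∀ i, Representation ℚ_[ℓ] Γ (V i)) (χ : Γ →* ℚ_[ℓ])
    (ω : ∀ i, V i →ₗ[ℚ_[ℓ]] V i →ₗ[ℚ_[ℓ]] ℚ_[ℓ]) (halt : ∀ i, ∀ v, ω i v v = 0)
    (hnondeg : ∀ i, ∀ u, (∀ v, ω i v u = 0) → u = 0)
    (hω : ∀ i s u v, ω i (ρ i s u) (ρ i s v) = χ s ^ (2 * e i + 1) * ω i u v)
    -- the Weil numbers
    {J : Type} [Fintype J] (c : J → I) (K : J → Type) [∀ j, Field (K j)]
    [∀ j, NumberField (K j)] [∀ j, IsCMField (K j)] (π : ∀ j, K j)
    (hint : ∀ j, IsIntegral ℤ (π j)) (hgen : ∀ j, ℚ⟮π j⟯ = ⊤)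
    (hweil : ∀ j, π j * IsCMField.complexConj (K j) (π j) =
      (p : K j) ^ (a * (2 * e (c j) + 1)))
    (hmild : Mild p (fun j => a * (2 * e (c j) + 1)) π)
    (hsep : Separated p (fun j => a * (2 * e (c j) + 1)) π)
    -- one Frobenius element
    (γ : Γ) (hχ : χ γ = (p : ℚ_[ℓ]) ^ a)
    (hγ : ∀ i, (ρ i γ).charpoly =
      ∏ j with c j = i, (minpoly ℚ (π j)).map (algebraMap ℚ ℚ_[ℓ])) :
    TateGeneratedByPairs ρ χ e :=
  multi_of_mild ρ χ e ω halt hnondeg hω ha c hint hgen hweil hmild hsep γ hχ hγ

end Pool.Agent.Results.MP_640417_ag.MildDifferentDegrees
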