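import Mathlib
import Pool.Agent.V11219.FinIn2
import Pool.Agent.Y126.Glue
import Pool.Agent.H204R3.GP.Hom

/-!
# Tate classes on all powers of abelian varieties with places of different kinds

Let `A` be an abelian variety over a finitely generated field of characteristic zero, `V = V_ℓ(A)`
its rational Tate module with the action `ρ` of the Galois group `Γ`, `χ` the cyclotomic character
and `ω` the Weil pairing of a polarization; `K` is the algebraic closure of `ℚ_ℓ` and `X = K ⊗ V`.
By the theorem of Faltings `X` is the sum of strongly irreducible subspaces `E i` (minimal nonzero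
subspaces stable under a subgroup of finite index of `Γ`); if `End(A) = ℤ` over the algebraic closure
there is just one, `E = X`.

Hypothesis (`HasPlaces`).  Each `E i` is a line which is not self-dual, or has dimension at least two
and one of the following holds; different `E i` can use places of different kinds, and `A` may have
factors of all types I, II, IV at the same time.

First kind.  `E i` has a place of bad semistable reduction (`HasBadPlace`; arbitrary toric rank) or
places of good reduction (`HasGoodPlaces`: pairs of Frobenius elements, or ratios of the eigenvalues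
of a Frobenius element), as in the theorems `AnyToricRank` and `FrobeniusPairsOrRatios` on the
Mumford-Tate conjecture, and (if `E i` is not self-dual) the `E j` which are twists of `E i` are
isomorphic to it.

Second kind (`HasFinitePlace`).  There is an element `γ` of finite order on `X` that maps all `E j` to
themselves (a generator of the image of the tame inertia group at a place of potentially good
reduction), such that the set of the eigenvalues of `γ` on `E i` is the union of two nonempty parts,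
and for `a` in the first and `b` in the second part: `a` or `b` is simple; `b / a` is the quotient of
no other pair of eigenvalues on `E i`, or `E i` is not isotropic, the parts are stable under the
duality `a ↦ χ(γ) / a`, and `b / a` is the quotient of no other pair but the dual one; geometric
progressions of three eigenvalues of `γ` on some `E j` with quotient `b / a` exist only if `E j` is
not isotropic, and are self-dual with simple outer terms.  If `E i` is not self-dual, moreover, the
eigenvalues of `γ` on the `E j` not isomorphic to `E i` are not proportional to those on `E i`.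

Theorem.  All Tate classes on all powers of `A` are linear combinations of products of Tate classes of
degree two and of Weil classes (the determinants of families of strongly irreducible subspaces that
are never dual to each other).  If there are no Weil families, for instance if no `E i` is isotropic
(types I and II), all Tate classes on all powers of `A` are linear combinations of products of Tate
classes of degree two, which are classes of divisors by the theorem of Faltings: there are no exotic
Tate classes, and the Tate conjecture holds for all powers of `A`.  Moreover all homomorphisms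
`V ^ {⊗ s} (c) → V ^ {⊗ t} (d)` which commute with a subgroup of finite index of `Γ` are then linear
combinations of products of Tate classes of degree two.

Example 1.  `End(A) = ℤ` and `A` is the Jacobian of a curve of genus `g` which has at ONE place `v` a
reduction with just one singular point, of type `y ^ 2 = x ^ (2 k + 1) + t`, `k < g` arbitrary, with
`v(t)` prime to `2 (2 k + 1)` and `v` prime to `2 (2 k + 1) ℓ`.

Example 2.  `A` is the Jacobian of `y ^ p = f(x)`, `p` an odd prime, where at ONE place `v`, prime to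
`2 p ℓ`, the polynomial `f` has one double root and no other multiple roots, and the discriminant of
`f` has valuation one, and the `p - 1` eigenspaces of the automorphism of order `p` are strongly
irreducible of dimension at least three.

Example 3.  Products `A × B` with `End(A) = End(B) = ℤ`, where `A` has a place of bad semistable
reduction whose defects have no common prime factor (its toric rank can be large), and `B` is as in
Example 1 at a place where `A` has good reduction: all Tate classes on all `A ^ m × B ^ n` are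
linear combinations of products of classes of divisors.  In general neither the conditions of the
first kind nor those of the second kind hold for all the `E i`.
-/

set_option autoImplicit false

namespace Pool.Agent.Results.MP_640417_ag.TatePlacesOfDifferentKinds

open Module TensorProduct Pool.Agent.Y126.Notions

noncomputable section

section conditions

variable {K X Γ : Type} [Field K] [AddCommGroup X] [Module K X] [Group Γ]

/-- The space of the eigenvectors of `γ` in `U` for the eigenvalue `a`. -/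
def eigenvectors (R : Representation K Γ X) (γ : Γ) (U : Submodule K X) (a : K) :
    Submodule K X :=
  U ⊓ Module.End.eigenspace (R γ) a

/-- The form `ω` is not zero on `U`. -/
def IsNotIsotropic (ω : X →ₗ[K] X →ₗ[K] K) (U : Submodule K X) : Prop :=
  ∃ u ∈ U, ∃ v ∈ U, ω u v ≠ 0

/-- Geometric progressions `a`, `a q`, `a q ^ 2` of eigenvalues of `γ` on `U` exist only if `ω` is not
zero on `U`; they satisfy `a (a q ^ 2) = χ(γ)`, and `a` is a simple eigenvalue. -/
def ProgressionsSelfDual (R : Representation K Γ X) (χ : Γ →* K) (ω : X →ₗ[K] X →ₗ[K] K) (γ : Γ)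
    (U : Submodule K X) (q : K) : Prop :=
  ∀ a, eigenvectors R γ U a ≠ ⊥ → eigenvectors R γ U (a * q) ≠ ⊥ →
    eigenvectors R γ U (a * q * q) ≠ ⊥ →
    IsNotIsotropic ω U ∧ finrank K (eigenvectors R γ U a) = 1 ∧ a * (a * q * q) = χ γ

/-- The eigenvalues of `γ` on `E i` are divided into two nonempty sets, `A` and its complement, such
that for `a` in `A` and `b` in the complement `a` or `b` is simple, `b / a` is the quotient of no
other pair of eigenvalues on `E i`, and progressions with quotient `b / a` are self-dual. -/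
def SplitsIsolated (R : Representation K Γ X) (χ : Γ →* K) (ω : X →ₗ[K] X →ₗ[K] K) {I : Type}
    (E : I → Submodule K X) (γ : Γ) (i : I) : Prop :=
  ∃ A : Set K, (∃ a ∈ A, eigenvectors R γ (E i) a ≠ ⊥) ∧
    (∃ b ∉ A, eigenvectors R γ (E i) b ≠ ⊥) ∧
    ∀ a ∈ A, ∀ b ∉ A, eigenvectors R γ (E i) a ≠ ⊥ → eigenvectors R γ (E i) b ≠ ⊥ →
      (finrank K (eigenvectors R γ (E i) a) = 1 ∨ finrank K (eigenvectors R γ (E i) b) = 1) ∧
      (∀ a', eigenvectors R γ (E i) a' ≠ ⊥ → eigenvectors R γ (E i) (a' * (b * a⁻¹)) ≠ ⊥ →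
        a' = a) ∧
      ∀ j, ProgressionsSelfDual R χ ω γ (E j) (b * a⁻¹)

/-- `E i` is not isotropic, the eigenvalues of `γ` on `E i` are divided into two nonempty sets, `A` and
its complement, both stable under the duality `a ↦ χ(γ) / a`, such that for `a` in `A` and `b` in the
complement `a` or `b` is simple, `b / a` is the quotient of no other pair of eigenvalues on `E i`
except the dual pair, and progressions with quotient `b / a` are self-dual. -/
def SplitsIsolatedDual (R : Representation K Γ X) (χ : Γ →* K) (ω : X →ₗ[K] X →ₗ[K] K) {I : Type}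
    (E : I → Submodule K X) (γ : Γ) (i : I) : Prop :=
  IsNotIsotropic ω (E i) ∧
  ∃ A : Set K, (∃ a ∈ A, eigenvectors R γ (E i) a ≠ ⊥) ∧
    (∃ b ∉ A, eigenvectors R γ (E i) b ≠ ⊥) ∧
    (∀ a, eigenvectors R γ (E i) a ≠ ⊥ → (a ∈ A ↔ χ γ * a⁻¹ ∈ A)) ∧
    ∀ a ∈ A, ∀ b ∉ A, eigenvectors R γ (E i) a ≠ ⊥ → eigenvectors R γ (E i) b ≠ ⊥ →
      (finrank K (eigenvectors R γ (E i) a) = 1 ∨ finrank K (eigenvectors R γ (E i) b) = 1) ∧
      (∀ a', eigenvectors R γ (E i) a' ≠ ⊥ → eigenvectors R γ (E i) (a' * (b * a⁻¹)) ≠ ⊥ →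
        a' = a ∨ a' * b = χ γ) ∧
      ∀ j, ProgressionsSelfDual R χ ω γ (E j) (b * a⁻¹)

/-- For the `E j` which are not isomorphic to `E i` (over a subgroup of finite index) the eigenvalues
of `γ` on `E j`, with multiplicities, are not the products of those on `E i` with a number `c`. -/
def Separates (R : Representation K Γ X) {I : Type} (E : I → Submodule K X) (γ : Γ) (i : I) :
    Prop :=
  ∀ j, ¬HasTwistedMap R (fun _ => 1) (E i) (E j) → ∀ c : K, c ≠ 0 → ∃ a : K,
    finrank K (eigenvectors R γ (E i) a) ≠ finrank K (eigenvectors R γ (E j) (c * a))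

/-- A diagonalizable element (a Frobenius element) with two eigenvectors in `U` such that the quotient
of the eigenvalues is not a root of unity.  (This is automatic for the Galois representation, if
`U` is strongly irreducible of dimension at least two.) -/
def HasFrobeniusElement (R : Representation K Γ X) (U : Submodule K X) : Prop :=
  ∃ (F : Γ) (b : Basis (Fin (finrank K X)) K X), (∀ k, ∃ a : K, R F (b k) = a • b k) ∧
    ∃ u ∈ U, ∃ v ∈ U, u ≠ 0 ∧ v ≠ 0 ∧ ∃ s t : K, R F u = s • u ∧ R F v = t • v ∧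
      ∀ k : ℕ, 0 < k → s ^ k ≠ t ^ k

/-- The conditions of the second kind for `E i`. -/
def HasFinitePlace (R : Representation K Γ X) (χ : Γ →* K) (ω : X →ₗ[K] X →ₗ[K] K) {I : Type}
    (E : I → Submodule K X) (i : I) : Prop :=
  HasFrobeniusElement R (E i) ∧
  ∃ γ : Γ, (∃ k : ℕ, 0 < k ∧ R γ ^ k = 1) ∧ (∀ j, ∀ u ∈ E j, R γ u ∈ E j) ∧
    (SplitsIsolated R χ ω E γ i ∨ SplitsIsolatedDual R χ ω E γ i) ∧
    (¬AreDual R χ (E i) (E i) → Separates R E γ i)

/-- Every `E i` is a line which is not self-dual, or satisfies the conditions of the first kind or of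
the second kind. -/
def HasPlaces (R : Representation K Γ X) (χ : Γ →* K) (ω : X →ₗ[K] X →ₗ[K] K) {I : Type}
    (E : I → Submodule K X) : Prop :=
  ∀ i, (finrank K (E i) = 1 ∧ ¬AreDual R χ (E i) (E i)) ∨
    (2 ≤ finrank K (E i) ∧
      (Pool.Agent.Y144.MT.HasBadPlace R χ (E i) ∨ Pool.Agent.Y144.MT.HasGoodPlaces R χ (E i)) ∧
      (¬AreDual R χ (E i) (E i) → ∀ (j : I) (ψ : Γ → K), HasTwistedMap R ψ (E i) (E j) →
        HasTwistedMap R (fun _ => 1) (E i) (E j))) ∨
    HasFinitePlace R χ ω E i

end conditions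

open Pool.Agent.H204R3.SP Pool.Agent.H204R3.GP Pool.Agent.W522.U Pool.Agent.TH118.WC

theorem result (ℓ : ℕ) [Fact ℓ.Prime] {V Γ : Type} [AddCommGroup V] [Module ℚ_[ℓ] V]
    [FiniteDimensional ℚ_[ℓ] V] [Group Γ] (ρ : Representation ℚ_[ℓ] Γ V) (χ : Γ →* ℚ_[ℓ])
    (ω : V →ₗ[ℚ_[ℓ]] V →ₗ[ℚ_[ℓ]] ℚ_[ℓ]) (halt : ∀ v, ω v v = 0)
    (hnondeg : ∀ u, (∀ v, ω v u = 0) → u = 0)
    (hω : ∀ s u v, ω (ρ s u) (ρ s v) = χ s * ω u v)
    -- the theorem of Faltings
    (hsemisimple : PotentiallySemisimple ρ)
    -- the decomposition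
    {I : Type} (E : I → Submodule (AlgebraicClosure ℚ_[ℓ]) (AlgebraicClosure ℚ_[ℓ] ⊗[ℚ_[ℓ]] V))
    (hE : ∀ i, StronglyIrreducible (extend (AlgebraicClosure ℚ_[ℓ]) ρ) (E i))
    (hsum : ⨆ i, E i = ⊤)
    -- the places
    (hplaces : HasPlaces (extend (AlgebraicClosure ℚ_[ℓ]) ρ)
      ((algebraMap ℚ_[ℓ] (AlgebraicClosure ℚ_[ℓ]) : ℚ_[ℓ] →* _).comp χ)
      (LinearMap.BilinForm.baseChange (AlgebraicClosure ℚ_[ℓ]) ω) E) :
    GeneratedByWeilClasses (AlgebraicClosure ℚ_[ℓ]) ρ χ ω ∧
    ((∀ (Q : Type) [Fintype Q] [Nonempty Q]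
      (L : Q → Submodule (AlgebraicClosure ℚ_[ℓ]) (AlgebraicClosure ℚ_[ℓ] ⊗[ℚ_[ℓ]] V)),
      ¬Pool.Agent.Y126.Notions.IsWeilFamily (extend (AlgebraicClosure ℚ_[ℓ]) ρ)
        ((algebraMap ℚ_[ℓ] (AlgebraicClosure ℚ_[ℓ]) : ℚ_[ℓ] →* _).comp χ) L) →
      GeneratedInDegreeTwo ρ χ ∧ HomsGeneratedInDegreeTwo ρ χ ω) ∧
    ((∀ i, IsNotIsotropic (LinearMap.BilinForm.baseChange (AlgebraicClosure ℚ_[ℓ]) ω) (E i)) →
      GeneratedInDegreeTwo ρ χ ∧ HomsGeneratedInDegreeTwo ρ χ ω) := by
  have hl1 : ∀ u, (∀ v, bcb (AlgebraicClosure ℚ_[ℓ]) ω u v = 0) → u = 0 := fun u hu =>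
    bcb_nondeg_left ω hnondeg (left_nondeg ω halt hnondeg) u hu
  have hinv := bcb_inv (Ω := AlgebraicClosure ℚ_[ℓ]) ρ χ ω hω
  have hpr : HasProj (bcr ρ (AlgebraicClosure ℚ_[ℓ])) := hasProj_bcr ρ _ hsemisimple
  have halt2 : ∀ v, bcb (AlgebraicClosure ℚ_[ℓ]) ω v v = 0 :=
    Pool.Agent.TH118.CU.bcb_alt (Ω := AlgebraicClosure ℚ_[ℓ]) ω halt
  have hSI : Pool.Agent.TH118.IS.SumOfSI (bcr ρ (AlgebraicClosure ℚ_[ℓ])) E := ⟨hE, hsum⟩
  have hpl' : Pool.Agent.V11219.FinIn.MixedPlaces (bcr ρ (AlgebraicClosure ℚ_[ℓ]))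
      (bcc χ (AlgebraicClosure ℚ_[ℓ])) (bcb (AlgebraicClosure ℚ_[ℓ]) ω) E := hplaces
  have core : ∀ (m : ℕ) (φ : MultilinearMap (AlgebraicClosure ℚ_[ℓ])
      (fun _ : Fin m × Fin 2 => AlgebraicClosure ℚ_[ℓ] ⊗[ℚ_[ℓ]] V) (AlgebraicClosure ℚ_[ℓ])),
      IsTate (bcr ρ (AlgebraicClosure ℚ_[ℓ])) (bcc χ (AlgebraicClosure ℚ_[ℓ])) m φ →
      φ ∈ Submodule.span _ (DetProd (bcr ρ (AlgebraicClosure ℚ_[ℓ]))
        (bcc χ (AlgebraicClosure ℚ_[ℓ])) m) := fun m φ hφ =>
    Pool.Agent.V11219.FinIn.det_of_mixed (R := bcr ρ (AlgebraicClosure ℚ_[ℓ]))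
      (χ := bcc χ (AlgebraicClosure ℚ_[ℓ])) (bcb (AlgebraicClosure ℚ_[ℓ]) ω) halt2 hl1 hinv hpr hSI
      hpl' φ hφ
  have two : (∀ (m : ℕ) (φ : MultilinearMap (AlgebraicClosure ℚ_[ℓ])
      (fun _ : Fin m × Fin 2 => AlgebraicClosure ℚ_[ℓ] ⊗[ℚ_[ℓ]] V) (AlgebraicClosure ℚ_[ℓ])),
      IsTate (bcr ρ (AlgebraicClosure ℚ_[ℓ])) (bcc χ (AlgebraicClosure ℚ_[ℓ])) m φ →
      φ ∈ Submodule.span (AlgebraicClosure ℚ_[ℓ]) (PT (bcr ρ (AlgebraicClosure ℚ_[ℓ]))
        (bcc χ (AlgebraicClosure ℚ_[ℓ])) m)) →
      GeneratedInDegreeTwo ρ χ ∧ HomsGeneratedInDegreeTwo ρ χ ω := by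
    intro H
    refine ⟨?_, ?_⟩
    · have h := generated_of_ext ρ χ (AlgebraicClosure ℚ_[ℓ]) H
      intro n m f hf
      refine Submodule.span_mono ?_ (h n m f hf)
      rintro g ⟨B, hB, hg⟩
      refine ⟨B, fun l => ?_, hg⟩
      obtain ⟨Δ, hΔ, h1⟩ := hB l
      refine ⟨Δ, hΔ, fun s hs v => ?_⟩
      have h2 := h1 s hs v
      rwa [pow_one] at h2
    · exact homs_generated ρ χ ω halt hnondeg hω fun m φ hφ =>
        tate_descent_any (Ω := AlgebraicClosure ℚ_[ℓ]) (Module.finBasis ℚ_[ℓ] V) ρ χ (H m) φ hφ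
  refine ⟨fun n m f hf => ?_, fun hno => ?_, fun hni => ?_⟩
  · refine Submodule.span_mono (Set.image_mono ?_)
      (classes_of_tensors (AlgebraicClosure ℚ_[ℓ]) ρ χ (bcb _ ω) hl1 hinv (core m) f hf)
    rintro g ⟨P, Q, hP, hQ, d, L, b, e, B, hB, hB0, ⟨hL1, hL2, hL3⟩, rfl⟩
    exact ⟨P, Q, hP, hQ, d, L, b, e, B, fun p => ⟨hB p, hB0 p⟩, ⟨hL1, hL2, hL3⟩, rfl⟩
  · exact two fun m φ hφ => Pool.Agent.Y126.Toric.pt_of_noWeil hno (core m φ hφ)
  · exact two fun m φ hφ => Pool.Agent.TH118.CU.detProd_pt
      (Pool.Agent.V11219.FinIn.selfDual_of (R := bcr ρ (AlgebraicClosure ℚ_[ℓ]))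
        (χ := bcc χ (AlgebraicClosure ℚ_[ℓ])) (bcb (AlgebraicClosure ℚ_[ℓ]) ω) halt2 hinv hpr hSI
        hni) φ (core m φ hφ)

end

end Pool.Agent.Results.MP_640417_ag.TatePlacesOfDifferentKinds
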